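import Mathlib

/-!
# Fragmentability of weakly compact sets
-/

set_option autoImplicit false
set_option linter.unusedSectionVars false

open Filter Topology Set

namespace Pool.Agent.W750.WAP

section frag

variable {𝕂 : Type*} [RCLike 𝕂] {X : Type*} [SeminormedAddCommGroup X] [NormedSpace 𝕂 X]
  {K : Type*} [TopologicalSpace K]

/-- The norm of a difference is at most `r` if all functionals of norm at most one say so. -/
theorem norm_le_of_dual {x : X} {r : ℝ} (h : ∀ φ : StrongDual 𝕂 X, ‖φ‖ ≤ 1 → ‖φ x‖ ≤ r) :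
    ‖x‖ ≤ r := by
  obtain ⟨g, hg1, hg2⟩ := exists_dual_vector'' 𝕂 x
  have := h g hg1
  rw [hg2] at this
  simpa using this

theorem isClosed_norm_le (j : K → X) (hj : ∀ φ : StrongDual 𝕂 X, Continuous fun k => φ (j k))
    {L : Type*} [TopologicalSpace L] (a b : L → K) (ha : Continuous a) (hb : Continuous b) (r : ℝ) :
    IsClosed {l : L | ‖j (a l) - j (b l)‖ ≤ r} := by
  have : {l : L | ‖j (a l) - j (b l)‖ ≤ r} =
      ⋂ φ : {φ : StrongDual 𝕂 X // ‖φ‖ ≤ 1}, {l : L | ‖φ.1 (j (a l)) - φ.1 (j (b l))‖ ≤ r} := by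
    ext l
    simp only [mem_ofPred_eq, mem_iInter]
    constructor
    · intro h φ
      rw [← map_sub]
      exact (φ.1.le_of_opNorm_le φ.2 _).trans (by rwa [one_mul])
    · intro h
      refine norm_le_of_dual (𝕂 := 𝕂) fun φ hφ => ?_
      rw [map_sub]
      exact h ⟨φ, hφ⟩
  rw [this]
  refine isClosed_iInter fun φ => ?_
  exact isClosed_le ((((hj φ.1).comp ha).sub ((hj φ.1).comp hb)).norm) continuous_const

/-- Points outside of a closed subspace are separated from it by a functional. -/
theorem exists_dual_ne_zero (W : Submodule 𝕂 X) (hW : IsClosed (W : Set X)) (x : X) (hx : x ∉ W) :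
    ∃ φ : StrongDual 𝕂 X, (∀ w ∈ W, φ w = 0) ∧ φ x ≠ 0 := by
  have hn : ‖(Submodule.Quotient.mk x : X ⧸ W)‖ ≠ 0 := by
    intro h
    apply hx
    have h1 : x ∈ closure (W : Set X) := by
      have h2 : ‖(QuotientAddGroup.mk x : X ⧸ W.toAddSubgroup)‖ = 0 := h
      exact (QuotientAddGroup.norm_mk_eq_zero_iff_mem_closure (S := W.toAddSubgroup)).1 h2
    rwa [hW.closure_eq] at h1
  obtain ⟨g, hg1, hg2⟩ := exists_dual_vector 𝕂 (Submodule.Quotient.mk x : X ⧸ W) hn
  refine ⟨g.comp W.mkQL, fun w hw => ?_, ?_⟩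
  · have : W.mkQL w = 0 := (Submodule.Quotient.mk_eq_zero W).2 hw
    rw [ContinuousLinearMap.comp_apply, this, map_zero]
  · intro h
    apply hn
    have h1 : g (Submodule.Quotient.mk x : X ⧸ W) = 0 := h
    rw [hg2] at h1
    exact_mod_cast h1

theorem mem_closure_span (j : K → X) (hj : ∀ φ : StrongDual 𝕂 X, Continuous fun k => φ (j k))
    (D : Set K) (z : K) (hz : z ∈ closure D) :
    j z ∈ closure (Submodule.span 𝕂 (j '' D) : Set X) := by
  by_contra hcon
  let W := (Submodule.span 𝕂 (j '' D)).topologicalClosure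
  have hW : IsClosed (W : Set X) := Submodule.isClosed_topologicalClosure _
  obtain ⟨φ, h1, h2⟩ := exists_dual_ne_zero W hW (j z) (by
    intro h
    apply hcon
    exact h)
  apply h2
  have hcl : IsClosed {k : K | φ (j k) = 0} := isClosed_eq (hj φ) continuous_const
  have hD : D ⊆ {k : K | φ (j k) = 0} := by
    intro k hk
    apply h1
    exact Submodule.le_topologicalClosure _ (Submodule.subset_span ⟨k, hk, rfl⟩)
  exact (closure_minimal hD hcl) hz

theorem uncountable_seq : ¬ Countable (ℕ → Bool) := by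
  intro h
  obtain ⟨f, hf⟩ := exists_surjective_nat (ℕ → Bool)
  obtain ⟨n, hn⟩ := hf fun n => !(f n n)
  have := congrFun hn n
  simp at this

variable [CompactSpace K] [Nonempty K]

/-- Weakly compact sets are fragmented by the norm. -/
theorem exists_open_small (j : K → X) (hj : ∀ φ : StrongDual 𝕂 X, Continuous fun k => φ (j k))
    (ε : ℝ) (hε : 0 < ε) :
    ∃ U : Set K, IsOpen U ∧ U.Nonempty ∧ ∀ x ∈ U, ∀ y ∈ U, ‖j x - j y‖ ≤ ε := by
  classical
  by_contra hcon
  push Not at hcon
  have hstep : ∀ U : {U : Set K // IsOpen U ∧ U.Nonempty},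
      ∃ V : Bool → {U : Set K // IsOpen U ∧ U.Nonempty}, (∀ b, (V b).1 ⊆ U.1) ∧
        ∀ z0 ∈ closure (V false).1, ∀ z1 ∈ closure (V true).1, ε ≤ ‖j z0 - j z1‖ := by
    rintro ⟨U, hU, hUne⟩
    obtain ⟨x, hx, y, hy, hxy⟩ := hcon U hU hUne
    obtain ⟨φ, hφ, hφ2⟩ := exists_dual_vector'' 𝕂 (j x - j y)
    set δ := (‖j x - j y‖ - ε) / 2 with hδ
    have hδ0 : 0 < δ := by rw [hδ]; linarith
    have hop : ∀ z : K, IsOpen (U ∩ {k | ‖φ (j k) - φ (j z)‖ < δ}) := fun z =>
      hU.inter (isOpen_lt (((hj φ).sub continuous_const).norm) continuous_const)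
    have hcl : ∀ z : K, ∀ k ∈ closure (U ∩ {k | ‖φ (j k) - φ (j z)‖ < δ}),
        ‖φ (j k) - φ (j z)‖ ≤ δ := by
      intro z k hk
      have hc : IsClosed {k | ‖φ (j k) - φ (j z)‖ ≤ δ} :=
        isClosed_le (((hj φ).sub continuous_const).norm) continuous_const
      have hsub : U ∩ {k | ‖φ (j k) - φ (j z)‖ < δ} ⊆ {k | ‖φ (j k) - φ (j z)‖ ≤ δ} := by
        intro k hk
        have h := hk.2
        rw [mem_ofPred_eq] at h ⊢
        exact h.le
      exact (closure_minimal hsub hc) hk
    refine ⟨fun b => if b then ⟨U ∩ {k | ‖φ (j k) - φ (j y)‖ < δ}, hop y, ⟨y, hy, by simpa using hδ0⟩⟩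
      else ⟨U ∩ {k | ‖φ (j k) - φ (j x)‖ < δ}, hop x, ⟨x, hx, by simpa using hδ0⟩⟩, ?_, ?_⟩
    · intro b
      cases b <;> exact inter_subset_left
    · intro z0 hz0 z1 hz1
      have h0 : ‖φ (j z0) - φ (j x)‖ ≤ δ := hcl x z0 hz0
      have h1 : ‖φ (j z1) - φ (j y)‖ ≤ δ := hcl y z1 hz1
      have h2 : ‖φ (j x) - φ (j y)‖ = ‖j x - j y‖ := by
        rw [← map_sub, hφ2]; simp
      have h3 : ‖φ (j x) - φ (j y)‖ ≤ ‖φ (j z0) - φ (j z1)‖ + ‖φ (j z0) - φ (j x)‖ +
          ‖φ (j z1) - φ (j y)‖ := by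
        have e : φ (j x) - φ (j y) = (φ (j z0) - φ (j z1)) - (φ (j z0) - φ (j x)) +
            (φ (j z1) - φ (j y)) := by ring
        rw [e]
        exact (norm_add_le _ _).trans (by gcongr; exact norm_sub_le _ _)
      have h4 : ‖φ (j z0) - φ (j z1)‖ ≤ ‖j z0 - j z1‖ := by
        rw [← map_sub]
        exact (φ.le_of_opNorm_le hφ _).trans (by rw [one_mul])
      rw [h2] at h3
      linarith
  choose ch hch1 hch2 using hstep
  let V : List Bool → {U : Set K // IsOpen U ∧ U.Nonempty} := fun l =>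
    List.rec ⟨univ, isOpen_univ, univ_nonempty⟩ (fun b _ U => ch U b) l
  have hV : ∀ b l, V (b :: l) = ch (V l) b := fun b l => rfl
  choose pt hpt using fun l => (V l).2.2
  let D : Set K := range pt
  have hDc : D.Countable := countable_range pt
  let pre : (ℕ → Bool) → ℕ → List Bool := fun β n => Nat.rec [] (fun n l => β n :: l) n
  have hpre : ∀ β n, pre β (n + 1) = β n :: pre β n := fun β n => rfl
  have hpre0 : ∀ β, pre β 0 = [] := fun β => rfl
  have hanti : ∀ β, ∀ n, (V (pre β (n + 1))).1 ⊆ (V (pre β n)).1 := by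
    intro β n
    rw [hpre, hV]
    exact hch1 _ _
  have hpoint : ∀ β : ℕ → Bool, ∃ x : K, x ∈ closure D ∧ ∀ n, x ∈ closure (V (pre β n)).1 := by
    intro β
    have hne : (⋂ n, closure ((V (pre β n)).1 ∩ D)).Nonempty := by
      refine IsCompact.nonempty_iInter_of_sequence_nonempty_isCompact_isClosed _ ?_ ?_ ?_ ?_
      · intro n
        exact closure_mono (inter_subset_inter_left _ (hanti β n))
      · intro n
        exact ⟨pt (pre β n), subset_closure ⟨hpt _, ⟨_, rfl⟩⟩⟩
      · exact isClosed_closure.isCompact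
      · intro n
        exact isClosed_closure
    obtain ⟨x, hx⟩ := hne
    rw [mem_iInter] at hx
    exact ⟨x, closure_mono inter_subset_right (hx 0), fun n => closure_mono inter_subset_left (hx n)⟩
  choose p hp1 hp2 using hpoint
  have hsep : ∀ β β' : ℕ → Bool, β ≠ β' → ε ≤ ‖j (p β) - j (p β')‖ := by
    intro β β' hne
    have hex : ∃ n, β n ≠ β' n := Function.ne_iff.1 hne
    have hpr : ∀ n ≤ Nat.find hex, pre β n = pre β' n := by
      intro n
      induction n with
      | zero => intro _; rfl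
      | succ n ih =>
        intro hn
        rw [hpre, hpre, ih (by omega)]
        have := Nat.find_min hex (m := n) (by omega)
        push Not at this
        rw [this]
    have h1 := hp2 β (Nat.find hex + 1)
    have h2 := hp2 β' (Nat.find hex + 1)
    rw [hpre, hV] at h1 h2
    rw [← hpr _ le_rfl] at h2
    have h3 := Nat.find_spec hex
    cases h4 : β (Nat.find hex) with
    | false =>
      have h5 : β' (Nat.find hex) = true := by
        rw [h4] at h3
        cases h6 : β' (Nat.find hex)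
        · exact absurd h6.symm h3
        · rfl
      rw [h4] at h1
      rw [h5] at h2
      exact hch2 _ _ h1 _ h2
    | true =>
      have h5 : β' (Nat.find hex) = false := by
        rw [h4] at h3
        cases h6 : β' (Nat.find hex)
        · rfl
        · exact absurd h6.symm h3
      rw [h4] at h1
      rw [h5] at h2
      rw [norm_sub_rev]
      exact hch2 _ _ h2 _ h1
  -- separability
  have hsepa : TopologicalSpace.IsSeparable (closure (Submodule.span 𝕂 (j '' D) : Set X)) :=
    ((hDc.image j).isSeparable.span).closure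
  obtain ⟨c, hc, hc2⟩ := hsepa
  have hw : ∀ β, ∃ w ∈ c, dist (j (p β)) w < ε / 2 := by
    intro β
    have h1 : j (p β) ∈ closure c := hc2 (mem_closure_span j hj D _ (hp1 β))
    obtain ⟨w, hw, hd⟩ := Metric.mem_closure_iff.1 h1 (ε / 2) (by positivity)
    exact ⟨w, hw, hd⟩
  choose w hw1 hw2 using hw
  apply uncountable_seq
  have hinj : Function.Injective fun β => (⟨w β, hw1 β⟩ : c) := by
    intro β β' h
    by_contra hne
    have h1 := hsep β β' hne
    have h2 : w β = w β' := congrArg Subtype.val h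
    have h3 := hw2 β
    have h4 := hw2 β'
    rw [h2] at h3
    have h5 := dist_triangle_right (j (p β)) (j (p β')) (w β')
    rw [dist_eq_norm (j (p β))] at h5
    linarith
  have := hc.to_subtype
  exact hinj.countable

end frag

end Pool.Agent.W750.WAP
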