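import Mathlib
import Pool.Agent.W750.WAP.Frag

/-!
# Fixed points of quasi-equicontinuous nonexpansive representations
-/

set_option autoImplicit false
set_option linter.unusedSectionVars false

open Filter Topology Set

namespace Pool.Agent.W750.WAP

/-- The kernel of a compact semitopological semigroup in which principal right ideals intersect. -/
theorem exists_kernel_idempotent {M : Type*} [Semigroup M] [TopologicalSpace M] [T2Space M]
    [CompactSpace M] [Nonempty M] (hr : ∀ r : M, Continuous (· * r))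
    (hl : ∀ l : M, Continuous (l * ·)) (hint : ∀ a b : M, ∃ c d, a * c = b * d) :
    ∃ e : M, e * e = e ∧ ∀ s : M, e * (s * e) = s * e ∧ ∃ h : M, (s * e) * (h * e) = e := by
  let R : Set M := ⋂ a : M, range (fun c => a * c)
  have hRmem : ∀ x, x ∈ R ↔ ∀ a, ∃ c, a * c = x := by
    intro x
    simp only [R, mem_iInter, mem_range]
  have hRne : R.Nonempty := by
    refine IsCompact.nonempty_iInter_of_directed_nonempty_isCompact_isClosed _ ?_ ?_ ?_ ?_
    · intro a b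
      obtain ⟨c, d, h⟩ := hint a b
      refine ⟨a * c, ?_, ?_⟩
      · rintro _ ⟨x, rfl⟩
        exact ⟨c * x, by simp only [mul_assoc]⟩
      · rintro _ ⟨x, rfl⟩
        exact ⟨d * x, by simp only [h, mul_assoc]⟩
    · intro a
      exact range_nonempty _
    · intro a
      exact isCompact_range (hl a)
    · intro a
      exact (isCompact_range (hl a)).isClosed
  have hRcl : IsClosed R := isClosed_iInter fun a => (isCompact_range (hl a)).isClosed
  have hRright : ∀ x ∈ R, ∀ m, x * m ∈ R := by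
    intro x hx m
    rw [hRmem] at hx ⊢
    intro a
    obtain ⟨c, hc⟩ := hx a
    exact ⟨c * m, by rw [← mul_assoc, hc]⟩
  have hRleft : ∀ s, ∀ x ∈ R, s * x ∈ R := by
    intro s x hx
    obtain ⟨y, hy⟩ := hRne
    obtain ⟨c, hc⟩ := (hRmem y).1 hy (s * x)
    have h1 : x * c ∈ R := hRright x hx c
    obtain ⟨d, hd⟩ := (hRmem x).1 hx (x * c)
    have : s * x = y * d := by
      rw [← hc]
      conv_lhs => rw [← hd]
      simp only [mul_assoc]
    rw [this]
    exact hRright y hy d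
  obtain ⟨e, he, hee⟩ := exists_idempotent_in_compact_subsemigroup hr R hRne hRcl.isCompact
    (fun x hx y _ => hRright x hx y)
  have hid : ∀ x ∈ R, e * x = x := by
    intro x hx
    obtain ⟨c, hc⟩ := (hRmem x).1 hx e
    rw [← hc, ← mul_assoc, hee]
  refine ⟨e, hee, fun s => ⟨hid _ (hRleft s e he), ?_⟩⟩
  obtain ⟨c, hc⟩ := (hRmem e).1 he (s * e)
  exact ⟨c, by rw [← mul_assoc, hc, hee]⟩

section env

variable {S : Type*} {K : Type*} [TopologicalSpace K] [CompactSpace K] [T2Space K]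

/-- the enveloping semigroup -/
def Env (T : S → K → K) : Set (K → K) := closure (range T)

theorem comp_mem_env {T : S → K → K} (hc : ∀ σ ∈ Env T, Continuous σ)
    (hmul : ∀ s t, ∃ u, T u = T s ∘ T t) {σ τ : K → K} (hσ : σ ∈ Env T) (hτ : τ ∈ Env T) :
    σ ∘ τ ∈ Env T := by
  have hTs : ∀ s, T s ∈ Env T := fun s => subset_closure ⟨s, rfl⟩
  have hcl : IsClosed (Env T) := isClosed_closure
  have h1 : ∀ s, ∀ τ ∈ Env T, T s ∘ τ ∈ Env T := by
    intro s τ hτ
    have hcont : Continuous fun τ : K → K => T s ∘ τ := by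
      refine continuous_pi fun x => ?_
      exact (hc _ (hTs s)).comp (continuous_apply x)
    have h2 : closure (range T) ⊆ (fun τ : K → K => T s ∘ τ) ⁻¹' (Env T) := by
      refine closure_minimal ?_ (hcl.preimage hcont)
      rintro _ ⟨t, rfl⟩
      obtain ⟨u, hu⟩ := hmul s t
      show T s ∘ T t ∈ Env T
      rw [← hu]
      exact hTs u
    exact h2 hτ
  have hcont : Continuous fun σ : K → K => σ ∘ τ := by
    refine continuous_pi fun x => ?_
    exact continuous_apply (τ x)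
  have h2 : closure (range T) ⊆ (fun σ : K → K => σ ∘ τ) ⁻¹' (Env T) := by
    refine closure_minimal ?_ (hcl.preimage hcont)
    rintro _ ⟨t, rfl⟩
    exact h1 t τ hτ
  exact h2 hσ

/-- the idempotent of the kernel, for self-maps -/
theorem exists_env_idempotent [Nonempty S] {T : S → K → K} (hc : ∀ σ ∈ Env T, Continuous σ)
    (hmul : ∀ s t, ∃ u, T u = T s ∘ T t)
    (hint : ∀ σ ∈ Env T, ∀ τ ∈ Env T, ∃ c ∈ Env T, ∃ d ∈ Env T, σ ∘ c = τ ∘ d) :
    ∃ e ∈ Env T, e ∘ e = e ∧ ∀ s ∈ Env T, e ∘ (s ∘ e) = s ∘ e ∧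
      ∃ h ∈ Env T, (s ∘ e) ∘ (h ∘ e) = e := by
  let M := {σ : K → K // σ ∈ Env T}
  let iS : Semigroup M :=
    { mul := fun σ τ => ⟨σ.1 ∘ τ.1, comp_mem_env hc hmul σ.2 τ.2⟩
      mul_assoc := fun _ _ _ => rfl }
  have hval : ∀ σ τ : M, (σ * τ).1 = σ.1 ∘ τ.1 := fun _ _ => rfl
  have iC : CompactSpace M := isCompact_iff_compactSpace.mp (isClosed_closure (s := range T)).isCompact
  have iN : Nonempty M := ⟨⟨T (Classical.arbitrary S), subset_closure ⟨_, rfl⟩⟩⟩
  have hr : ∀ r : M, Continuous (· * r) := by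
    intro r
    refine Continuous.subtype_mk ?_ _
    refine continuous_pi fun x => ?_
    exact (continuous_apply (r.1 x)).comp continuous_subtype_val
  have hl : ∀ l : M, Continuous (l * ·) := by
    intro l
    refine Continuous.subtype_mk ?_ _
    refine continuous_pi fun x => ?_
    exact (hc _ l.2).comp ((continuous_apply x).comp continuous_subtype_val)
  obtain ⟨e, he1, he2⟩ := exists_kernel_idempotent hr hl (by
    intro a b
    obtain ⟨c, hc1, d, hd1, h⟩ := hint a.1 a.2 b.1 b.2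
    exact ⟨⟨c, hc1⟩, ⟨d, hd1⟩, Subtype.ext h⟩)
  refine ⟨e.1, e.2, congrArg Subtype.val he1, fun s hs => ?_⟩
  obtain ⟨h1, h, h2⟩ := he2 ⟨s, hs⟩
  exact ⟨congrArg Subtype.val h1, h.1, h.2, congrArg Subtype.val h2⟩

end env

section fixed

variable {𝕂 : Type*} [RCLike 𝕂] {ι : Type*} {X : ι → Type*} [∀ i, SeminormedAddCommGroup (X i)]
  [∀ i, NormedSpace 𝕂 (X i)] {S : Type*} [Nonempty S]
  {K : Type*} [TopologicalSpace K] [CompactSpace K] [T2Space K] [Nonempty K]

/-- finite nets give points whose distance to all points of the set is definitely smaller than the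
diameter -/
theorem exists_center (Y : Type*) [SeminormedAddCommGroup Y] (j : K → Y) (mid : K → K → K)
    (hmid : ∀ x y z, ‖j (mid x y) - j z‖ ≤ (‖j x - j z‖ + ‖j y - j z‖) / 2)
    (C F : Set K) (hFC : F ⊆ C) (hC : ∀ x ∈ C, ∀ y ∈ C, mid x y ∈ C) (d : ℝ) (hd : 0 < d)
    (t : Finset K) (ht : t.Nonempty) (htF : ∀ x ∈ t, x ∈ F) :
    ∃ u ∈ C, ∃ c : ℝ, 0 < c ∧ ∀ z, (∀ x ∈ t, ‖j x - j z‖ ≤ d) →
      ‖j u - j z‖ ≤ d ∧ ((∃ x ∈ t, ‖j x - j z‖ ≤ d / 2) → ‖j u - j z‖ ≤ (1 - c) * d) := by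
  classical
  induction ht using Finset.Nonempty.cons_induction with
  | singleton a =>
    refine ⟨a, hFC (htF a (by simp)), 1 / 2, by norm_num, fun z hz => ⟨hz a (by simp), ?_⟩⟩
    rintro ⟨x, hx, h⟩
    rw [Finset.mem_singleton] at hx
    subst hx
    linarith
  | cons a s ha hs ih =>
    obtain ⟨u, hu, c, hc, h⟩ := ih (fun x hx => htF x (Finset.mem_cons_of_mem hx))
    refine ⟨mid a u, hC _ (hFC (htF a (Finset.mem_cons_self a s))) _ hu, min (c / 2) (1 / 4),
      by positivity, fun z hz => ?_⟩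
    have h1 : ‖j a - j z‖ ≤ d := hz a (Finset.mem_cons_self a s)
    obtain ⟨h2, h3⟩ := h z (fun x hx => hz x (Finset.mem_cons_of_mem hx))
    have h4 := hmid a u z
    refine ⟨by linarith, ?_⟩
    rintro ⟨x, hx, hxz⟩
    rw [Finset.mem_cons] at hx
    rcases hx with rfl | hx
    · have h5 : min (c / 2) (1 / 4) ≤ 1 / 4 := min_le_right _ _
      nlinarith
    · have h5 : min (c / 2) (1 / 4) ≤ c / 2 := min_le_left _ _
      have h6 := h3 ⟨x, hx, hxz⟩
      nlinarith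

/-- **Fixed point theorem.** -/
theorem exists_fixed (j : ∀ i, K → X i)
    (hj : ∀ i, ∀ φ : StrongDual 𝕂 (X i), Continuous fun k => φ (j i k))
    (hsep : ∀ x y, (∀ i, ‖j i x - j i y‖ = 0) → x = y)
    (mid : K → K → K)
    (hmid : ∀ i x y z, ‖j i (mid x y) - j i z‖ ≤ (‖j i x - j i z‖ + ‖j i y - j i z‖) / 2)
    (T : S → K → K) (hc : ∀ σ ∈ Env T, Continuous σ) (hmul : ∀ s t, ∃ u, T u = T s ∘ T t)
    (hint : ∀ σ ∈ Env T, ∀ τ ∈ Env T, ∃ c ∈ Env T, ∃ d ∈ Env T, σ ∘ c = τ ∘ d)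
    (hne : ∀ s i x y, ‖j i (T s x) - j i (T s y)‖ ≤ ‖j i x - j i y‖) :
    ∃ x, ∀ s, T s x = x := by
  classical
  have hTs : ∀ s, T s ∈ Env T := fun s => subset_closure ⟨s, rfl⟩
  -- limits are nonexpansive
  have hneσ : ∀ σ ∈ Env T, ∀ i x y, ‖j i (σ x) - j i (σ y)‖ ≤ ‖j i x - j i y‖ := by
    intro σ hσ i x y
    have hcl : IsClosed {σ : K → K | ‖j i (σ x) - j i (σ y)‖ ≤ ‖j i x - j i y‖} :=
      isClosed_norm_le (j i) (hj i) (fun σ : K → K => σ x) (fun σ : K → K => σ y)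
        (continuous_apply x) (continuous_apply y) _
    have hsub : range T ⊆ {σ : K → K | ‖j i (σ x) - j i (σ y)‖ ≤ ‖j i x - j i y‖} := by
      rintro _ ⟨s, rfl⟩
      rw [mem_ofPred_eq]
      exact hne s i x y
    exact closure_minimal hsub hcl hσ
  -- minimal invariant convex closed sets
  let 𝓕 : Set (Set K) := {C | IsClosed C ∧ C.Nonempty ∧ (∀ s, ∀ x ∈ C, T s x ∈ C) ∧
    ∀ x ∈ C, ∀ y ∈ C, mid x y ∈ C}
  obtain ⟨C, -, hCmin⟩ := zorn_superset_nonempty 𝓕 (by
    intro c hc𝓕 hchain hcne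
    refine ⟨⋂₀ c, ⟨?_, ?_, ?_, ?_⟩, fun s hs => sInter_subset_of_mem hs⟩
    · exact isClosed_sInter fun s hs => (hc𝓕 hs).1
    · have : Nonempty c := hcne.to_subtype
      rw [sInter_eq_iInter]
      refine IsCompact.nonempty_iInter_of_directed_nonempty_isCompact_isClosed _ ?_ ?_ ?_ ?_
      · intro a b
        rcases hchain.total a.2 b.2 with h | h
        · exact ⟨a, Subset.rfl, h⟩
        · exact ⟨b, h, Subset.rfl⟩
      · intro a; exact (hc𝓕 a.2).2.1
      · intro a; exact (hc𝓕 a.2).1.isCompact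
      · intro a; exact (hc𝓕 a.2).1
    · intro s x hx D hD
      exact (hc𝓕 hD).2.2.1 s x (hx D hD)
    · intro x hx y hy D hD
      exact (hc𝓕 hD).2.2.2 x (hx D hD) y (hy D hD)) univ
    ⟨isClosed_univ, univ_nonempty, fun _ _ _ => mem_univ _, fun _ _ _ _ => mem_univ _⟩
  obtain ⟨⟨hCcl, ⟨x0, hx0⟩, hCT, hCmid⟩, hCmin2⟩ := hCmin
  have hCσ : ∀ σ ∈ Env T, ∀ x ∈ C, σ x ∈ C := by
    intro σ hσ x hx
    have hcl : IsClosed {σ : K → K | σ x ∈ C} := hCcl.preimage (continuous_apply x)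
    have hsub : range T ⊆ {σ : K → K | σ x ∈ C} := by
      rintro _ ⟨s, rfl⟩
      rw [mem_ofPred_eq]
      exact hCT s x hx
    exact closure_minimal hsub hcl hσ
  obtain ⟨e, he, hee, hek⟩ := exists_env_idempotent hc hmul hint
  let x1 := e x0
  have hex1 : e x1 = x1 := congrFun hee x0
  let F : Set K := (fun σ : K → K => σ x1) '' Env T
  have hFcomp : IsCompact F :=
    ((isClosed_closure (s := range T)).isCompact).image (continuous_apply x1)
  have hFC : F ⊆ C := by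
    rintro _ ⟨σ, hσ, rfl⟩
    exact hCσ σ hσ _ (hCσ e he _ hx0)
  -- elements of F
  have hFe : ∀ y ∈ F, e y = y := by
    rintro _ ⟨σ, hσ, rfl⟩
    have h1 := congrFun (hek σ hσ).1 x0
    have h2 : σ x1 = (σ ∘ e) x1 := by
      show σ x1 = σ (e x1)
      rw [hex1]
    show e (σ x1) = σ x1
    exact h1
  have hFσ : ∀ σ ∈ Env T, ∀ y ∈ F, σ y ∈ F := by
    rintro σ hσ _ ⟨τ, hτ, rfl⟩
    exact ⟨σ ∘ τ, comp_mem_env hc hmul hσ hτ, rfl⟩
  -- inverses on F
  have hinv : ∀ σ ∈ Env T, ∃ τ ∈ Env T, ∀ y ∈ F, σ (τ y) = y := by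
    intro σ hσ
    obtain ⟨-, h, hh, h2⟩ := hek σ hσ
    refine ⟨h, hh, fun y hy => ?_⟩
    have h3 := congrFun h2 y
    have h4 : ((σ ∘ e) ∘ (h ∘ e)) y = σ (h y) := by
      show σ (e (h (e y))) = σ (h y)
      rw [hFe y hy, hFe _ (hFσ h hh y hy)]
    rw [← h4, h3, hFe y hy]
  have hinv2 : ∀ σ ∈ Env T, ∃ τ ∈ Env T, (∀ y ∈ F, σ (τ y) = y) ∧ ∀ y ∈ F, τ (σ y) = y := by
    intro σ hσ
    obtain ⟨τ, hτ, h1⟩ := hinv σ hσ
    obtain ⟨ρ, hρ, h2⟩ := hinv τ hτ
    refine ⟨τ, hτ, h1, fun y hy => ?_⟩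
    have h3 : ρ y = σ y := by
      have := h1 (ρ y) (hFσ ρ hρ y hy)
      rw [h2 y hy] at this
      exact this.symm
    rw [← h3]
    exact h2 y hy
  have htrans : ∀ y ∈ F, ∀ z ∈ F, ∃ σ ∈ Env T, σ y = z := by
    rintro _ ⟨σ, hσ, rfl⟩ _ ⟨τ, hτ, rfl⟩
    obtain ⟨ρ, hρ, -, h2⟩ := hinv2 σ hσ
    refine ⟨τ ∘ ρ, comp_mem_env hc hmul hτ hρ, ?_⟩
    show τ (ρ (σ x1)) = τ x1
    rw [h2 x1 ⟨e, he, hex1⟩]
  have hiso : ∀ σ ∈ Env T, ∀ i, ∀ y ∈ F, ∀ z ∈ F, ‖j i (σ y) - j i (σ z)‖ = ‖j i y - j i z‖ := by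
    intro σ hσ i y hy z hz
    refine le_antisymm (hneσ σ hσ i y z) ?_
    obtain ⟨τ, hτ, -, h2⟩ := hinv2 σ hσ
    have := hneσ τ hτ i (σ y) (σ z)
    rwa [h2 y hy, h2 z hz] at this
  have hFne : F.Nonempty := ⟨x1, e, he, hex1⟩
  -- total boundedness
  have htb : ∀ i, ∀ ε : ℝ, 0 < ε → ∃ t : Finset K, t.Nonempty ∧ (∀ x ∈ t, x ∈ F) ∧
      ∀ y ∈ F, ∃ x ∈ t, ‖j i x - j i y‖ ≤ ε := by
    intro i ε hε
    have iF : CompactSpace F := isCompact_iff_compactSpace.mp hFcomp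
    have iFn : Nonempty F := hFne.to_subtype
    obtain ⟨U, hU, ⟨u, hu⟩, hUs⟩ := exists_open_small (𝕂 := 𝕂) (K := F) (fun y : F => j i y.1)
      (fun φ => (hj i φ).comp continuous_subtype_val) ε hε
    -- the translates
    choose g hg hgu using fun y : F => htrans y.1 y.2 u.1 u.2
    have hmap : ∀ y : F, ∀ z : F, g y z.1 ∈ F := fun y z => hFσ _ (hg y) z.1 z.2
    let W : F → Set F := fun y => {z : F | (⟨g y z.1, hmap y z⟩ : F) ∈ U}
    have hWo : ∀ y, IsOpen (W y) := by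
      intro y
      refine hU.preimage ?_
      exact Continuous.subtype_mk ((hc _ (hg y)).comp continuous_subtype_val) _
    have hWy : ∀ y, y ∈ W y := by
      intro y
      have : (⟨g y y.1, hmap y y⟩ : F) = u := Subtype.ext (hgu y)
      show (⟨g y y.1, hmap y y⟩ : F) ∈ U
      rw [this]
      exact hu
    obtain ⟨t, ht⟩ := isCompact_univ.elim_finite_subcover W hWo
      (fun y _ => mem_iUnion.2 ⟨y, hWy y⟩)
    refine ⟨t.image Subtype.val, ?_, ?_, ?_⟩
    · obtain ⟨y⟩ := iFn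
      have := ht (mem_univ y)
      simp only [mem_iUnion, exists_prop] at this
      obtain ⟨z, hz, -⟩ := this
      exact ⟨z.1, Finset.mem_image_of_mem _ hz⟩
    · intro x hx
      obtain ⟨z, -, rfl⟩ := Finset.mem_image.1 hx
      exact z.2
    · intro y hy
      have := ht (mem_univ (⟨y, hy⟩ : F))
      simp only [mem_iUnion, exists_prop] at this
      obtain ⟨z, hz, hyz⟩ := this
      refine ⟨z.1, Finset.mem_image_of_mem _ hz, ?_⟩
      rw [← hiso (g z) (hg z) i z.1 z.2 y hy]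
      exact hUs _ (hWy z) _ hyz
  -- the diameters vanish
  have hdiam : ∀ i, ∀ y ∈ F, ∀ z ∈ F, ‖j i y - j i z‖ = 0 := by
    intro i
    by_contra hcon
    push Not at hcon
    obtain ⟨y0, hy0, z0, hz0, h0⟩ := hcon
    let B : Set ℝ := {r | ∃ y ∈ F, ∃ z ∈ F, r = ‖j i y - j i z‖}
    have hBne : B.Nonempty := ⟨_, y0, hy0, z0, hz0, rfl⟩
    have hBbdd : BddAbove B := by
      obtain ⟨t, htne, htF, ht⟩ := htb i 1 one_pos
      obtain ⟨M, hM'⟩ := ((t ×ˢ t).image (fun p => ‖j i p.1 - j i p.2‖)).exists_le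
      have hM : ∀ p ∈ t ×ˢ t, ‖j i p.1 - j i p.2‖ ≤ M := fun p hp =>
        hM' _ (Finset.mem_image_of_mem _ hp)
      refine ⟨M + 2, ?_⟩
      rintro _ ⟨y, hy, z, hz, rfl⟩
      obtain ⟨a, ha, hay⟩ := ht y hy
      obtain ⟨b, hb, hbz⟩ := ht z hz
      have h1 := hM (a, b) (Finset.mem_product.2 ⟨ha, hb⟩)
      have h2 : ‖j i y - j i z‖ ≤ ‖j i a - j i y‖ + ‖j i a - j i b‖ + ‖j i b - j i z‖ := by
        have e1 : j i y - j i z = -(j i a - j i y) + (j i a - j i b) + (j i b - j i z) := by abel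
        rw [e1]
        refine (norm_add_le _ _).trans ?_
        gcongr
        refine (norm_add_le _ _).trans ?_
        rw [norm_neg]
      dsimp only at h1
      linarith
    set d := sSup B with hd
    have hd0 : 0 < d := by
      have h1 : ‖j i y0 - j i z0‖ ≤ d := le_csSup hBbdd ⟨y0, hy0, z0, hz0, rfl⟩
      have h2 : 0 < ‖j i y0 - j i z0‖ := lt_of_le_of_ne (norm_nonneg _) (Ne.symm h0)
      linarith
    have hdle : ∀ y ∈ F, ∀ z ∈ F, ‖j i y - j i z‖ ≤ d := fun y hy z hz =>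
      le_csSup hBbdd ⟨y, hy, z, hz, rfl⟩
    obtain ⟨t, htne, htF, ht⟩ := htb i (d / 2) (by positivity)
    obtain ⟨u, huC, c, hc0, hu⟩ := exists_center (X i) (j i) mid (hmid i) C F hFC hCmid d hd0 t
      htne htF
    have huF : ∀ y ∈ F, ‖j i u - j i y‖ ≤ (1 - c) * d := by
      intro y hy
      exact (hu y (fun x hx => hdle x (htF x hx) y hy)).2 (ht y hy)
    -- the smaller set
    let C1 : Set K := C ∩ ⋂ y ∈ F, {x | ‖j i x - j i y‖ ≤ (1 - c) * d}
    have hC1 : C1 ∈ 𝓕 := by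
      refine ⟨?_, ⟨u, huC, ?_⟩, ?_, ?_⟩
      · refine hCcl.inter (isClosed_biInter fun y _ => ?_)
        exact isClosed_norm_le (j i) (hj i) (fun x => x) (fun _ => y) continuous_id
          continuous_const _
      · simp only [mem_iInter, mem_ofPred_eq]
        exact huF
      · rintro s x ⟨hxC, hx⟩
        simp only [mem_iInter, mem_ofPred_eq] at hx
        refine ⟨hCT s x hxC, ?_⟩
        simp only [mem_iInter, mem_ofPred_eq]
        intro y hy
        obtain ⟨τ, hτ, h1⟩ := hinv (T s) (hTs s)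
        have h2 := hne s i x (τ y)
        rw [h1 y hy] at h2
        exact h2.trans (hx _ (hFσ τ hτ y hy))
      · rintro x ⟨hxC, hx⟩ y ⟨hyC, hy⟩
        simp only [mem_iInter, mem_ofPred_eq] at hx hy
        refine ⟨hCmid x hxC y hyC, ?_⟩
        simp only [mem_iInter, mem_ofPred_eq]
        intro z hz
        have h1 := hmid i x y z
        have h2 := hx z hz
        have h3 := hy z hz
        linarith
    have hCC1 : C ⊆ C1 := hCmin2 hC1 inter_subset_left
    have hle : ∀ y ∈ F, ∀ z ∈ F, ‖j i y - j i z‖ ≤ (1 - c) * d := by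
      intro y hy z hz
      have h1 := (hCC1 (hFC hy)).2
      simp only [mem_iInter, mem_ofPred_eq] at h1
      exact h1 z hz
    have hd1 : d ≤ (1 - c) * d := by
      refine csSup_le hBne ?_
      rintro _ ⟨y, hy, z, hz, rfl⟩
      exact hle y hy z hz
    nlinarith
  refine ⟨x1, fun s => ?_⟩
  have hx1F : x1 ∈ F := ⟨e, he, hex1⟩
  exact hsep _ _ fun i => hdiam i _ (hFσ _ (hTs s) _ hx1F) _ hx1F

end fixed

end Pool.Agent.W750.WAP
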