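import Mathlib
import Pool.Agent.H136R3.Dom

/-!
# Grothendieck: integrals of separately continuous functions are continuous
-/

set_option autoImplicit false
set_option linter.unusedSectionVars false

open MeasureTheory Filter Topology Set

namespace Pool.Agent.W750.WAP

section dominated

variable {X : Type*} [TopologicalSpace X] [CompactSpace X] [T2Space X]

/-- Bounded functionals on `C(X, ℂ)` are continuous along bounded pointwise convergent sequences. -/
theorem tendsto_functional (Φ : StrongDual ℂ C(X, ℂ)) (f : ℕ → C(X, ℂ)) (g : C(X, ℂ)) (M : ℝ)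
    (hM : ∀ n x, ‖f n x‖ ≤ M) (hg : ∀ x, Tendsto (fun n => f n x) atTop (𝓝 (g x))) :
    Tendsto (fun n => Φ (f n)) atTop (𝓝 (Φ g)) := by
  borelize X
  obtain ⟨μ, hμ, -, h⟩ := Pool.Agent.H136R3.exists_dominating Φ
  have hgM : ∀ x, ‖g x‖ ≤ M := fun x =>
    le_of_tendsto (hg x).norm (Eventually.of_forall fun n => hM n x)
  have h1 : Tendsto (fun n => ∫ x, ‖f n x - g x‖ ∂μ) atTop (𝓝 (∫ _, (0 : ℝ) ∂μ)) := by
    refine tendsto_integral_of_dominated_convergence (fun _ => M + M) ?_ ?_ ?_ ?_
    · intro n
      have : Continuous fun x => ‖f n x - g x‖ := by fun_prop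
      exact this.aestronglyMeasurable
    · exact integrable_const _
    · intro n
      refine Eventually.of_forall fun x => ?_
      rw [norm_norm]
      exact (norm_sub_le _ _).trans (add_le_add (hM n x) (hgM x))
    · refine Eventually.of_forall fun x => ?_
      have := ((hg x).sub_const (g x)).norm
      simpa using this
  rw [integral_zero] at h1
  rw [tendsto_iff_norm_sub_tendsto_zero]
  refine squeeze_zero (fun _ => norm_nonneg _) (fun n => ?_) h1
  rw [← map_sub]
  exact h _

end dominated

section groth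

variable {X : Type*} [TopologicalSpace X] [CompactSpace X] [T2Space X]
  {A : Type*} [TopologicalSpace A] [CompactSpace A]

/-- finite nets for finitely many continuous functions -/
theorem exists_net (F : A → C(X, ℂ)) (l : List A) (δ : ℝ) (hδ : 0 < δ) :
    ∃ D : Finset X, ∀ x : X, ∃ d ∈ D, ∀ a ∈ l, ‖F a x - F a d‖ < δ := by
  classical
  have h : ∀ d : X, IsOpen {x : X | ∀ a ∈ l, ‖F a x - F a d‖ < δ} := by
    intro d
    have : {x : X | ∀ a ∈ l, ‖F a x - F a d‖ < δ} = ⋂ a ∈ l.toFinset, {x | ‖F a x - F a d‖ < δ} := by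
      ext x; simp
    rw [this]
    refine isOpen_biInter_finset fun a _ => ?_
    exact isOpen_lt (by fun_prop) continuous_const
  obtain ⟨t, ht⟩ := isCompact_univ.elim_finite_subcover _ h (fun x _ => mem_iUnion.2 ⟨x, fun a _ => by simpa using hδ⟩)
  refine ⟨t, fun x => ?_⟩
  have := ht (mem_univ x)
  simp only [mem_iUnion, exists_prop] at this
  obtain ⟨d, hd, hx⟩ := this
  exact ⟨d, hd, hx⟩

/-- **Grothendieck's theorem**: for a bounded family of continuous functions on a compact space
parametrised by a compact space and pointwise continuous in the parameter, all bounded functionals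
depend continuously on the parameter. -/
theorem continuous_functional (F : A → C(X, ℂ)) (hF : ∀ x, Continuous fun a => F a x) (M : ℝ)
    (hM : ∀ a x, ‖F a x‖ ≤ M) (Φ : StrongDual ℂ C(X, ℂ)) : Continuous fun a => Φ (F a) := by
  classical
  rw [continuous_iff_continuousAt]
  intro a0
  by_contra hcon
  rw [ContinuousAt, Metric.tendsto_nhds] at hcon
  push Not at hcon
  obtain ⟨ε, hε, hcon⟩ := hcon
  -- the state: the points chosen so far, and the finite test set
  have hstep : ∀ (s : List A × Finset X), ∃ s' : List A × Finset X, ∃ a : A,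
      s'.1 = a :: s.1 ∧ s.2 ⊆ s'.2 ∧
      (∀ x : X, ∃ d ∈ s'.2, ∀ b ∈ a0 :: s.1, ‖F b x - F b d‖ < 1 / ((s.1.length : ℝ) + 1)) ∧
      (∀ d ∈ s'.2, ‖F a d - F a0 d‖ < 1 / ((s.1.length : ℝ) + 1)) ∧
      ε ≤ dist (Φ (F a)) (Φ (F a0)) := by
    rintro ⟨l, D⟩
    have hδ : (0 : ℝ) < 1 / ((l.length : ℝ) + 1) := by positivity
    obtain ⟨D', hD'⟩ := exists_net F (a0 :: l) _ hδ
    have hev : ∀ᶠ a in 𝓝 a0, ∀ d ∈ D ∪ D', ‖F a d - F a0 d‖ < 1 / ((l.length : ℝ) + 1) := by
      rw [Filter.eventually_all_finset]
      intro d _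
      have h1 : ContinuousAt (fun a => ‖F a d - F a0 d‖) a0 :=
        (((hF d).sub continuous_const).norm).continuousAt
      exact h1.eventually_lt_const (by simpa using hδ)
    obtain ⟨a, ha1, ha2⟩ := (hcon.and_eventually hev).exists
    refine ⟨(a :: l, D ∪ D'), a, rfl, Finset.subset_union_left, ?_, ha2, ha1⟩
    intro x
    obtain ⟨d, hd, h⟩ := hD' x
    exact ⟨d, Finset.mem_union_right _ hd, h⟩
  choose nxt pt h1 h2 h3 h4 h5 using hstep
  let st : ℕ → List A × Finset X := fun n => Nat.rec ([], ∅) (fun _ s => nxt s) n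
  have hst : ∀ n, st (n + 1) = nxt (st n) := fun n => rfl
  let a : ℕ → A := fun n => pt (st n)
  have hlen : ∀ n, (st n).1.length = n := by
    intro n
    induction n with
    | zero => rfl
    | succ n ih => rw [hst, h1, List.length_cons, ih]
  have hmem : ∀ m n, m < n → a m ∈ (st n).1 := by
    intro m n hmn
    induction n with
    | zero => omega
    | succ n ih =>
      rw [hst, h1]
      rcases Nat.lt_succ_iff_lt_or_eq.1 hmn with h | h
      · exact List.mem_cons_of_mem _ (ih h)
      · rw [h]; exact List.mem_cons_self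
  have hmono : Monotone fun n => (st n).2 := monotone_nat_of_le_succ fun n => h2 (st n)
  have hnet : ∀ (n : ℕ) (x : X), ∃ d ∈ (st (n + 1)).2, (‖F a0 x - F a0 d‖ < 1 / ((n : ℝ) + 1)) ∧
      ∀ m < n, ‖F (a m) x - F (a m) d‖ < 1 / ((n : ℝ) + 1) := by
    intro n x
    obtain ⟨d, hd, h⟩ := h3 (st n) x
    rw [hlen] at h
    exact ⟨d, hd, h _ List.mem_cons_self, fun m hm => h _ (List.mem_cons_of_mem _ (hmem m n hm))⟩
  have hclose : ∀ (n : ℕ), ∀ d ∈ (st (n + 1)).2, ‖F (a n) d - F a0 d‖ < 1 / ((n : ℝ) + 1) := by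
    intro n d hd
    have := h4 (st n) d hd
    rwa [hlen] at this
  have hfar : ∀ n, ε ≤ dist (Φ (F (a n))) (Φ (F a0)) := fun n => h5 (st n)
  have hone : Tendsto (fun n : ℕ => 1 / ((n : ℝ) + 1)) atTop (𝓝 0) :=
    tendsto_one_div_add_atTop_nhds_zero_nat
  -- every cluster point agrees with `a0`
  have hlim : ∀ (U : Ultrafilter ℕ), (U : Filter ℕ) ≤ atTop → ∀ b : A, Tendsto a U (𝓝 b) →
      ∀ x, F b x = F a0 x := by
    intro U hU b hb x
    -- agreement on test points
    have htest : ∀ n, ∀ d ∈ (st (n + 1)).2, F b d = F a0 d := by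
      intro n d hd
      have e1 : Tendsto (fun m => F (a m) d) U (𝓝 (F b d)) := ((hF d).tendsto b).comp hb
      have e2 : Tendsto (fun m => F (a m) d) U (𝓝 (F a0 d)) := by
        rw [tendsto_iff_norm_sub_tendsto_zero]
        refine squeeze_zero' (Eventually.of_forall fun _ => norm_nonneg _) ?_ (hone.mono_left hU)
        have : ∀ᶠ m in (U : Filter ℕ), n ≤ m := hU (eventually_ge_atTop n)
        refine this.mono fun m hm => ?_
        exact (hclose m d (hmono (show n + 1 ≤ m + 1 by omega) hd)).le
      exact tendsto_nhds_unique e1 e2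
    choose d hd hd0 hdm using fun n => hnet n x
    -- cluster point of the net points
    obtain ⟨z, hz⟩ : ∃ z, Tendsto d U (𝓝 z) := by
      obtain ⟨z, -, hz⟩ := isCompact_univ.ultrafilter_le_nhds (Ultrafilter.map d U) (by simp)
      exact ⟨z, hz⟩
    have g0 : F a0 z = F a0 x := by
      have e1 : Tendsto (fun n => F a0 (d n)) U (𝓝 (F a0 z)) :=
        ((F a0).continuous.tendsto z).comp hz
      have e2 : Tendsto (fun n => F a0 (d n)) U (𝓝 (F a0 x)) := by
        rw [tendsto_iff_norm_sub_tendsto_zero]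
        refine squeeze_zero (fun _ => norm_nonneg _) (fun n => ?_) (hone.mono_left hU)
        rw [norm_sub_rev]
        exact (hd0 n).le
      exact tendsto_nhds_unique e1 e2
    have gm : ∀ m, F (a m) z = F (a m) x := by
      intro m
      have e1 : Tendsto (fun n => F (a m) (d n)) U (𝓝 (F (a m) z)) :=
        ((F (a m)).continuous.tendsto z).comp hz
      have e2 : Tendsto (fun n => F (a m) (d n)) U (𝓝 (F (a m) x)) := by
        rw [tendsto_iff_norm_sub_tendsto_zero]
        refine squeeze_zero' (Eventually.of_forall fun _ => norm_nonneg _) ?_ (hone.mono_left hU)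
        have : ∀ᶠ n in (U : Filter ℕ), m < n := hU (eventually_gt_atTop m)
        refine this.mono fun n hn => ?_
        rw [norm_sub_rev]
        exact (hdm n m hn).le
      exact tendsto_nhds_unique e1 e2
    have gb : F b z = F b x := by
      have e1 : Tendsto (fun m => F (a m) z) U (𝓝 (F b z)) := ((hF z).tendsto b).comp hb
      have e2 : Tendsto (fun m => F (a m) x) U (𝓝 (F b x)) := ((hF x).tendsto b).comp hb
      have e3 : (fun m => F (a m) z) = fun m => F (a m) x := funext gm
      rw [e3] at e1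
      exact tendsto_nhds_unique e1 e2
    have gz : F b z = F a0 z := by
      have e1 : Tendsto (fun n => F b (d n)) U (𝓝 (F b z)) := ((F b).continuous.tendsto z).comp hz
      have e2 : Tendsto (fun n => F a0 (d n)) U (𝓝 (F a0 z)) :=
        ((F a0).continuous.tendsto z).comp hz
      have e3 : (fun n => F b (d n)) = fun n => F a0 (d n) := funext fun n => htest n _ (hd n)
      rw [e3] at e1
      exact tendsto_nhds_unique e1 e2
    rw [← gb, gz, g0]
  have hconv : ∀ x, Tendsto (fun n => F (a n) x) atTop (𝓝 (F a0 x)) := by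
    intro x
    rw [tendsto_iff_ultrafilter]
    intro U hU
    obtain ⟨b, -, hb⟩ := isCompact_univ.ultrafilter_le_nhds (Ultrafilter.map a U) (by simp)
    have hb' : Tendsto a U (𝓝 b) := hb
    rw [← hlim U hU b hb' x]
    exact ((hF x).tendsto b).comp hb'
  have h6 := tendsto_functional Φ (fun n => F (a n)) (F a0) M (fun n x => hM _ _) hconv
  have h7 : Tendsto (fun n => dist (Φ (F (a n))) (Φ (F a0))) atTop (𝓝 0) :=
    tendsto_iff_dist_tendsto_zero.1 h6
  exact absurd (ge_of_tendsto' h7 hfar) (not_le.2 hε)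

end groth

end Pool.Agent.W750.WAP
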