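import Mathlib
import Pool.Agent.W750.WAP.Groth
import Pool.Agent.W750.WAP.Fixed

/-!
# Invariant means on weakly almost periodic functions
-/

set_option autoImplicit false
set_option linter.unusedSectionVars false

open Filter Topology Set BoundedContinuousFunction

namespace Pool.Agent.W750.WAP

section real

variable {X : Type*} [TopologicalSpace X] [CompactSpace X] [T2Space X]
  {A : Type*} [TopologicalSpace A] [CompactSpace A]

/-- real parts of complex continuous functions -/
noncomputable def cre (g : C(X, ℂ)) : C(X, ℝ) := ⟨fun x => (g x).re, by fun_prop⟩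
/-- imaginary parts of complex continuous functions -/
noncomputable def cim (g : C(X, ℂ)) : C(X, ℝ) := ⟨fun x => (g x).im, by fun_prop⟩

theorem norm_cre_le (g : C(X, ℂ)) : ‖cre g‖ ≤ ‖g‖ := by
  rw [ContinuousMap.norm_le _ (norm_nonneg _)]
  intro x
  exact (Complex.abs_re_le_norm _).trans (g.norm_coe_le_norm x)

theorem norm_cim_le (g : C(X, ℂ)) : ‖cim g‖ ≤ ‖g‖ := by
  rw [ContinuousMap.norm_le _ (norm_nonneg _)]
  intro x
  exact (Complex.abs_im_le_norm _).trans (g.norm_coe_le_norm x)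

/-- the complexification of a real functional -/
noncomputable def complexify (ψ : StrongDual ℝ C(X, ℝ)) : StrongDual ℂ C(X, ℂ) :=
  LinearMap.mkContinuous
    { toFun := fun g => (ψ (cre g) : ℂ) + (ψ (cim g) : ℂ) * Complex.I
      map_add' := by
        intro g h
        have e1 : cre (g + h) = cre g + cre h := by ext x; simp [cre]
        have e2 : cim (g + h) = cim g + cim h := by ext x; simp [cim]
        rw [e1, e2, map_add, map_add]
        push_cast
        ring
      map_smul' := by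
        intro c g
        have e1 : cre (c • g) = c.re • cre g - c.im • cim g := by ext x; simp [cre, cim]
        have e2 : cim (c • g) = c.re • cim g + c.im • cre g := by ext x; simp [cre, cim]
        rw [e1, e2, map_sub, map_add, map_smul, map_smul, map_smul, map_smul]
        apply Complex.ext <;> simp }
    (2 * ‖ψ‖) (by
      intro g
      simp only [LinearMap.coe_mk, AddHom.coe_mk]
      refine (norm_add_le _ _).trans ?_
      rw [norm_mul, Complex.norm_I, mul_one, Complex.norm_real, Complex.norm_real]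
      have h1 := ψ.le_opNorm (cre g)
      have h2 := ψ.le_opNorm (cim g)
      have h3 := mul_le_mul_of_nonneg_left (norm_cre_le g) (norm_nonneg ψ)
      have h4 := mul_le_mul_of_nonneg_left (norm_cim_le g) (norm_nonneg ψ)
      linarith)

theorem continuous_functional_real (F : A → C(X, ℝ)) (hF : ∀ x, Continuous fun a => F a x) (M : ℝ)
    (hM : ∀ a x, ‖F a x‖ ≤ M) (ψ : StrongDual ℝ C(X, ℝ)) : Continuous fun a => ψ (F a) := by
  let G : A → C(X, ℂ) := fun a => ⟨fun x => ((F a x : ℝ) : ℂ), by fun_prop⟩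
  have h1 := continuous_functional G (fun x => Complex.continuous_ofReal.comp (hF x)) M
    (fun a x => by
      show ‖((F a x : ℝ) : ℂ)‖ ≤ M
      rw [Complex.norm_real]
      exact hM a x) (complexify ψ)
  have h2 : (fun a => ψ (F a)) = fun a => (complexify ψ (G a)).re := by
    funext a
    have e1 : cre (G a) = F a := by ext x; simp [cre, G]
    have e2 : cim (G a) = 0 := by ext x; simp [cim, G]
    have e3 : complexify ψ (G a) = (ψ (cre (G a)) : ℂ) + (ψ (cim (G a)) : ℂ) * Complex.I := rfl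
    rw [e3, e1, e2, map_zero]
    simp
  rw [h2]
  exact Complex.continuous_re.comp h1

end real

section means

universe u

variable {𝕜 : Type*} [RCLike 𝕜] {S : Type u} [Semigroup S] [TopologicalSpace S]
  {K : Type*} [TopologicalSpace K] [CompactSpace K] [T2Space K]

/-- left translates of bounded continuous functions -/
noncomputable def lt (hS : ∀ t : S, Continuous fun s : S => t * s) (a : S) (f : S →ᵇ 𝕜) : S →ᵇ 𝕜 :=
  f.compContinuous ⟨fun t => a * t, hS a⟩

variable (T : S → K → K)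

instance compact_env : CompactSpace {σ // σ ∈ Env T} :=
  isCompact_iff_compactSpace.mp (isClosed_closure (s := range T)).isCompact

/-- continuous functions on the enveloping semigroup give bounded continuous functions on `S` -/
noncomputable def emb (hT : ∀ x, Continuous fun s => T s x) (g : C({σ // σ ∈ Env T}, ℝ)) : S →ᵇ 𝕜 :=
  BoundedContinuousFunction.ofNormedAddCommGroup
    (fun s => ((g ⟨T s, subset_closure ⟨s, rfl⟩⟩ : ℝ) : 𝕜))
    (RCLike.continuous_ofReal.comp (g.continuous.comp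
      (Continuous.subtype_mk (continuous_pi hT) _))) ‖g‖ (by
      intro s
      rw [RCLike.norm_ofReal]
      exact g.norm_coe_le_norm _)

variable {T}

theorem emb_apply (hT : ∀ x, Continuous fun s => T s x) (g : C({σ // σ ∈ Env T}, ℝ)) (s : S) :
    emb (𝕜 := 𝕜) T hT g s = ((g ⟨T s, subset_closure ⟨s, rfl⟩⟩ : ℝ) : 𝕜) := rfl

theorem norm_emb_le (hT : ∀ x, Continuous fun s => T s x) (g : C({σ // σ ∈ Env T}, ℝ)) :
    ‖emb (𝕜 := 𝕜) T hT g‖ ≤ ‖g‖ := by
  refine BoundedContinuousFunction.norm_ofNormedAddCommGroup_le _ (norm_nonneg _) _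

theorem emb_add (hT : ∀ x, Continuous fun s => T s x) (g h : C({σ // σ ∈ Env T}, ℝ)) :
    emb (𝕜 := 𝕜) T hT (g + h) = emb T hT g + emb T hT h := by
  ext s
  simp [emb_apply]

theorem emb_smul (hT : ∀ x, Continuous fun s => T s x) (c : ℝ) (g : C({σ // σ ∈ Env T}, ℝ)) :
    emb (𝕜 := 𝕜) T hT (c • g) = (c : 𝕜) • emb T hT g := by
  ext s
  simp [emb_apply]

/-- left translation on functions on the enveloping semigroup -/
noncomputable def lenv (hc : ∀ σ ∈ Env T, Continuous σ) (hmul : ∀ s t, T (s * t) = T s ∘ T t)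
    (σ : {σ // σ ∈ Env T}) (g : C({σ // σ ∈ Env T}, ℝ)) : C({σ // σ ∈ Env T}, ℝ) :=
  g.comp ⟨fun τ => ⟨σ.1 ∘ τ.1, comp_mem_env hc (fun s t => ⟨s * t, hmul s t⟩) σ.2 τ.2⟩,
    Continuous.subtype_mk (continuous_pi fun x =>
      (hc _ σ.2).comp ((continuous_apply x).comp continuous_subtype_val)) _⟩

theorem lenv_apply (hc : ∀ σ ∈ Env T, Continuous σ) (hmul : ∀ s t, T (s * t) = T s ∘ T t)
    (σ : {σ // σ ∈ Env T}) (g : C({σ // σ ∈ Env T}, ℝ)) (τ : {σ // σ ∈ Env T}) :
    lenv hc hmul σ g τ =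
      g ⟨σ.1 ∘ τ.1, comp_mem_env hc (fun s t => ⟨s * t, hmul s t⟩) σ.2 τ.2⟩ := rfl

theorem continuous_lenv (hc : ∀ σ ∈ Env T, Continuous σ) (hmul : ∀ s t, T (s * t) = T s ∘ T t)
    (g : C({σ // σ ∈ Env T}, ℝ)) (τ : {σ // σ ∈ Env T}) :
    Continuous fun σ => lenv hc hmul σ g τ := by
  simp only [lenv_apply]
  refine g.continuous.comp (Continuous.subtype_mk (continuous_pi fun x => ?_) _)
  exact (continuous_apply (τ.1 x)).comp continuous_subtype_val

theorem lt_emb (hS : ∀ t : S, Continuous fun s : S => t * s) (hT : ∀ x, Continuous fun s => T s x)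
    (hc : ∀ σ ∈ Env T, Continuous σ) (hmul : ∀ s t, T (s * t) = T s ∘ T t) (a : S)
    (g : C({σ // σ ∈ Env T}, ℝ)) :
    lt hS a (emb (𝕜 := 𝕜) T hT g) = emb T hT (lenv hc hmul ⟨T a, subset_closure ⟨a, rfl⟩⟩ g) := by
  ext s
  show emb (𝕜 := 𝕜) T hT g (a * s) = _
  rw [emb_apply, emb_apply, lenv_apply]
  have h : (⟨T (a * s), subset_closure ⟨a * s, rfl⟩⟩ : {σ // σ ∈ Env T}) =
      ⟨T a ∘ T s, comp_mem_env hc (fun s t => ⟨s * t, hmul s t⟩) (subset_closure ⟨a, rfl⟩)
        (subset_closure ⟨s, rfl⟩)⟩ := Subtype.ext (hmul a s)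
  rw [h]

/-- real functionals on functions on the enveloping semigroup -/
noncomputable def reFun (hT : ∀ x, Continuous fun s => T s x) (φ : StrongDual 𝕜 (S →ᵇ 𝕜))
    (f : 𝕜 →L[ℝ] ℝ) (hf : ‖f‖ ≤ 1) :
    StrongDual ℝ C({σ // σ ∈ Env T}, ℝ) :=
  LinearMap.mkContinuous
    { toFun := fun g => f (φ (emb T hT g))
      map_add' := by
        intro g h
        rw [emb_add, map_add, map_add]
      map_smul' := by
        intro c g
        rw [emb_smul, map_smul, RingHom.id_apply]
        have : (c : 𝕜) • φ (emb T hT g) = c • φ (emb T hT g) := by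
          rw [RCLike.real_smul_eq_coe_mul, smul_eq_mul]
        rw [this, map_smul] } ‖φ‖ (by
      intro g
      simp only [LinearMap.coe_mk, AddHom.coe_mk]
      have h1 := f.le_of_opNorm_le hf (φ (emb T hT g))
      rw [one_mul] at h1
      refine h1.trans ((φ.le_opNorm _).trans ?_)
      exact mul_le_mul_of_nonneg_left (norm_emb_le hT g) (norm_nonneg _))

theorem continuous_dual_emb (hT : ∀ x, Continuous fun s => T s x)
    (hc : ∀ σ ∈ Env T, Continuous σ) (hmul : ∀ s t, T (s * t) = T s ∘ T t)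
    (g : C({σ // σ ∈ Env T}, ℝ)) (φ : StrongDual 𝕜 (S →ᵇ 𝕜)) :
    Continuous fun σ => φ (emb T hT (lenv hc hmul σ g)) := by
  have hb : ∀ σ τ, ‖lenv hc hmul σ g τ‖ ≤ ‖g‖ := fun σ τ => g.norm_coe_le_norm _
  have hre : Continuous fun σ => RCLike.re (φ (emb T hT (lenv hc hmul σ g))) :=
    continuous_functional_real (fun σ => lenv hc hmul σ g) (continuous_lenv hc hmul g) ‖g‖ hb
      (reFun hT φ RCLike.reCLM RCLike.reCLM_norm.le)
  have him : Continuous fun σ => RCLike.im (φ (emb T hT (lenv hc hmul σ g))) :=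
    continuous_functional_real (fun σ => lenv hc hmul σ g) (continuous_lenv hc hmul g) ‖g‖ hb
      (reFun hT φ RCLike.imCLM (by
        refine ContinuousLinearMap.opNorm_le_bound _ zero_le_one fun z => ?_
        rw [one_mul]
        exact RCLike.abs_im_le_norm z))
  have h : (fun σ => φ (emb T hT (lenv hc hmul σ g))) = fun σ =>
      ((RCLike.re (φ (emb T hT (lenv hc hmul σ g))) : ℝ) : 𝕜) +
      ((RCLike.im (φ (emb T hT (lenv hc hmul σ g))) : ℝ) : 𝕜) * RCLike.I := by
    funext σ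
    exact (RCLike.re_add_im _).symm
  rw [h]
  exact (RCLike.continuous_ofReal.comp hre).add
    ((RCLike.continuous_ofReal.comp him).mul continuous_const)

/-- the functions coming from the enveloping semigroup are weakly almost periodic -/
theorem isCompact_closure_emb (hS : ∀ t : S, Continuous fun s : S => t * s)
    (hT : ∀ x, Continuous fun s => T s x)
    (hc : ∀ σ ∈ Env T, Continuous σ) (hmul : ∀ s t, T (s * t) = T s ∘ T t)
    (g : C({σ // σ ∈ Env T}, ℝ)) :
    IsCompact (closure (toWeakSpace 𝕜 (S →ᵇ 𝕜) '' range fun a => lt hS a (emb T hT g))) := by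
  let Ψ : {σ // σ ∈ Env T} → WeakSpace 𝕜 (S →ᵇ 𝕜) := fun σ =>
    toWeakSpace 𝕜 (S →ᵇ 𝕜) (emb T hT (lenv hc hmul σ g))
  have hΨ : Continuous Ψ := by
    refine WeakBilin.continuous_of_continuous_eval _ fun φ => ?_
    exact continuous_dual_emb hT hc hmul g φ
  have hcomp : IsCompact (range Ψ) := isCompact_range hΨ
  refine hcomp.closure_of_subset ?_
  rintro _ ⟨_, ⟨a, rfl⟩, rfl⟩
  refine ⟨⟨T a, subset_closure ⟨a, rfl⟩⟩, ?_⟩
  simp only [Ψ, lt_emb hS hT hc hmul]

/-- an invariant functional forces the principal right ideals to intersect -/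
theorem exists_inter
    (hc : ∀ σ ∈ Env T, Continuous σ) (hmul : ∀ s t, T (s * t) = T s ∘ T t)
    (Λ : C({σ // σ ∈ Env T}, ℝ) →ₗ[ℝ] ℝ) (hpos : ∀ g : C({σ // σ ∈ Env T}, ℝ), (∀ σ, 0 ≤ g σ) → 0 ≤ Λ g)
    (hone : Λ 1 = 1) (hinv : ∀ a g, Λ (lenv hc hmul ⟨T a, subset_closure ⟨a, rfl⟩⟩ g) = Λ g) :
    ∀ σ ∈ Env T, ∀ τ ∈ Env T, ∃ c ∈ Env T, ∃ d ∈ Env T, σ ∘ c = τ ∘ d := by
  have hbound : ∀ g, ‖Λ g‖ ≤ 1 * ‖g‖ := by
    intro g
    rw [one_mul, Real.norm_eq_abs, abs_le]
    have h1 : 0 ≤ Λ (‖g‖ • 1 - g) := hpos _ fun σ => by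
      have := g.norm_coe_le_norm σ
      have := le_abs_self (g σ)
      simp only [ContinuousMap.sub_apply, ContinuousMap.smul_apply, ContinuousMap.one_apply,
        smul_eq_mul, mul_one]
      rw [Real.norm_eq_abs] at *
      linarith
    have h2 : 0 ≤ Λ (‖g‖ • 1 + g) := hpos _ fun σ => by
      have := g.norm_coe_le_norm σ
      have := neg_abs_le (g σ)
      simp only [ContinuousMap.add_apply, ContinuousMap.smul_apply, ContinuousMap.one_apply,
        smul_eq_mul, mul_one]
      rw [Real.norm_eq_abs] at *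
      linarith
    rw [map_sub, map_smul, hone, smul_eq_mul, mul_one] at h1
    rw [map_add, map_smul, hone, smul_eq_mul, mul_one] at h2
    constructor <;> linarith
  let Λ' : StrongDual ℝ C({σ // σ ∈ Env T}, ℝ) := Λ.mkContinuous 1 hbound
  have hinvσ : ∀ (g : C({σ // σ ∈ Env T}, ℝ)) (σ : {σ // σ ∈ Env T}),
      Λ (lenv hc hmul σ g) = Λ g := by
    intro g σ
    have hcont : Continuous fun σ => Λ (lenv hc hmul σ g) :=
      continuous_functional_real (fun σ => lenv hc hmul σ g) (continuous_lenv hc hmul g) ‖g‖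
        (fun σ τ => g.norm_coe_le_norm _) Λ'
    have hdense : DenseRange fun a : S => (⟨T a, subset_closure ⟨a, rfl⟩⟩ : {σ // σ ∈ Env T}) := by
      intro σ
      rw [closure_subtype]
      have h1 : (Subtype.val '' range fun a : S =>
          (⟨T a, subset_closure ⟨a, rfl⟩⟩ : {σ // σ ∈ Env T})) = range T := by
        rw [← range_comp]; rfl
      rw [h1]
      exact σ.2
    have h1 : (fun σ => Λ (lenv hc hmul σ g)) = fun _ => Λ g := by
      refine hdense.equalizer hcont continuous_const ?_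
      funext a
      exact hinv a g
    exact congrFun h1 σ
  intro σ hσ τ hτ
  by_contra hcon
  push Not at hcon
  let R : {σ // σ ∈ Env T} → Set {σ // σ ∈ Env T} := fun σ => range fun c : {σ // σ ∈ Env T} =>
    (⟨σ.1 ∘ c.1, comp_mem_env hc (fun s t => ⟨s * t, hmul s t⟩) σ.2 c.2⟩ : {σ // σ ∈ Env T})
  have hRc : ∀ σ, IsClosed (R σ) := by
    intro σ
    refine (isCompact_range ?_).isClosed
    exact Continuous.subtype_mk (continuous_pi fun x =>
      (hc _ σ.2).comp ((continuous_apply x).comp continuous_subtype_val)) _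
  have hdisj : Disjoint (R ⟨σ, hσ⟩) (R ⟨τ, hτ⟩) := by
    rw [Set.disjoint_left]
    rintro _ ⟨c, rfl⟩ ⟨d, hd⟩
    exact hcon c.1 c.2 d.1 d.2 (congrArg Subtype.val hd).symm
  obtain ⟨g, hg0, hg1, -⟩ := exists_continuous_zero_one_of_isClosed (hRc ⟨σ, hσ⟩) (hRc ⟨τ, hτ⟩) hdisj
  have e0 : lenv hc hmul ⟨σ, hσ⟩ g = 0 := by
    ext ρ
    rw [lenv_apply]
    exact hg0 ⟨ρ, rfl⟩
  have e1 : lenv hc hmul ⟨τ, hτ⟩ g = 1 := by
    ext ρ
    rw [lenv_apply]
    exact hg1 ⟨ρ, rfl⟩
  have h0 := hinvσ g ⟨σ, hσ⟩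
  have h1 := hinvσ g ⟨τ, hτ⟩
  rw [e0, map_zero] at h0
  rw [e1, hone] at h1
  rw [← h0] at h1
  exact one_ne_zero h1

end means

end Pool.Agent.W750.WAP
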